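import Pool.Agent.Helper37.OF.St2

/-!
# Project OF (MP_121524_al): module CR2
-/

set_option autoImplicit false

namespace Pool.Agent.Helper99.OF

open Pool.Agent.Helper37.OF Monoid Pool.Agent.Helper4.FS

universe u v w x

open Classical in
/-- translation of simple points -/
theorem simple_map {Q : Type x} [Group Q] {L : List (Q × Q)} {z : Q} (q : Q) (h : Simple L z) :
    Simple (L.map fun p => (p.1 * q, p.2 * q)) (z * q) := by
  have hinj : Function.Injective (fun y : Q => y * q) := mul_left_injective q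
  have e1 : (L.map fun p => (p.1 * q, p.2 * q)).map Prod.fst =
      (L.map Prod.fst).map (fun y : Q => y * q) := by
    rw [List.map_map, List.map_map]
    rfl
  have e2 : (L.map fun p => (p.1 * q, p.2 * q)).map Prod.snd =
      (L.map Prod.snd).map (fun y : Q => y * q) := by
    rw [List.map_map, List.map_map]
    rfl
  have hmem : ∀ M : List Q, z * q ∈ M.map (fun y : Q => y * q) → z ∈ M := by
    intro M hM
    obtain ⟨y, hy, hyz⟩ := List.mem_map.1 hM
    have : y = z := hinj hyz
    exact this ▸ hy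
  have hcount : ∀ M : List Q, (M.map (fun y : Q => y * q)).count (z * q) = M.count z := fun M =>
    List.count_map_of_injective M (fun y : Q => y * q) hinj z
  unfold Simple at h ⊢
  rw [e1, e2, hcount, hcount]
  rcases h with h | h | h
  · exact Or.inl fun h' => h (hmem _ h')
  · exact Or.inr (Or.inl fun h' => h (hmem _ h'))
  · exact Or.inr (Or.inr h)

theorem pp'_ne_nil {A : Type u} {B : Type v} {Q : Type x} [Group A] [Group B] [Group Q]
    (πA : A →* Q) (πB : B →* Q) {l : List (A × B)} (hl : l ≠ []) : pp' (pts πA πB l) ≠ [] := by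
  cases l with
  | nil => exact absurd rfl hl
  | cons p l =>
    intro h
    unfold pp' pts at h
    simp at h

theorem gd_of_injective {A : Type u} {Q : Type x} {G : Type w} [Group A] [Group Q] [Group G]
    (π : A →* Q) (f : π.ker →* G) (hf : Function.Injective f) (L : List A)
    (hL : ∀ a ∈ L, a ≠ 1) : Gd π f L := by
  intro a ha c h h1
  have h2 : (⟨c⁻¹ * a * c, h⟩ : π.ker) = 1 := hf (by rw [h1, map_one])
  have h3 : c⁻¹ * a * c = 1 := congrArg Subtype.val h2
  apply hL a ha
  have h4 : a = c * (c⁻¹ * a * c) * c⁻¹ := by group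
  rw [h4, h3]
  group

/-- the core, for any group `G` which contains the kernels -/
theorem core (hSECA : StSEC.{u, x}) (hSECB : StSEC.{v, x}) (hACT : StACT.{u, v, w, x})
    (hST2 : StST2.{u, v, w, x}) (hOR2 : StOR2.{w, x}) (hCNT : StCNT.{w, x})
    (A : Type u) (B : Type v) (Q : Type x) [Group A] [Group B] [Group Q] [LinearOrder Q]
    (hord : ∀ a b c : Q, b < c → a * b < a * c) (m : ℕ) (hm : 2 ≤ m) (πA : A →* Q) (πB : B →* Q)
    (l : List (A × B)) (hl : l ≠ []) (hne : ∀ p ∈ l, p.1 ≠ 1 ∧ p.2 ≠ 1)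
    (hl1 : Coprod.lift πA πB (wd l) = 1)
    (hsimple : ∀ q c, Ext (pp' (pts πA πB l)) q c → Simple (pts πA πB l) c)
    (G : Type w) [Group G] (f : πA.ker →* G) (g : πB.ker →* G) (hf : Function.Injective f)
    (hg : Function.Injective g) (τ : G) (hτ : τ ≠ 1)
    (hδ : ∀ (T : Type (max x w)) [Group T] (t : T), ∃ δ : G →* T, δ τ = t) :
    ∃ (W : Type (max x w)) (_ : Group W) (Φ : Coprod A B →* W), Φ (wd l) ^ m = 1 ∧
      (∀ a, a ≠ 1 → Φ (Coprod.inl a) ≠ 1) ∧ ∀ b, b ≠ 1 → Φ (Coprod.inr b) ≠ 1 := by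
  obtain ⟨s, hs⟩ := hSECA A Q πA
  obtain ⟨s', hs'⟩ := hSECB B Q πB
  have hGA : Gd πA f (l.map Prod.fst) := by
    apply gd_of_injective πA f hf
    intro a ha
    obtain ⟨p, hp, rfl⟩ := List.mem_map.1 ha
    exact (hne p hp).1
  have hGB : Gd πB g (l.map Prod.snd) := by
    apply gd_of_injective πB g hg
    intro b hb
    obtain ⟨p, hp, rfl⟩ := List.mem_map.1 hb
    exact (hne p hp).2
  have hR := hST2 A B Q G πA πB f g s s' hs hs' τ hτ l hl hl1 hGA hGB
  set R : Q → Fp G (Option Q) := fun q => Wq τ (bl πA πB f g s s' l q) with hRdef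
  have hLF : ∀ q c, Ext (pp' (pts πA πB l)) q c → LF (R q) m (some (c * q)) := by
    intro q c hc
    apply hCNT G Q τ (c * q) (bl πA πB f g s s' l q) m hm hδ ((hR q).2.2 c hc.1)
    rw [(hR q).1]
    exact simple_map q (hsimple q c hc)
  have hinj := hOR2 Q hord G m (pp' (pts πA πB l)) R (pp'_ne_nil πA πB hl) (fun q => (hR q).2.1)
    hLF
  set N : Subgroup (Fp G (Option Q)) :=
    Subgroup.normalClosure (Set.range fun q => R q ^ m) with hN
  have hjj : ∀ c : G, (QuotientGroup.mk' N) (ofi none c) = 1 → c = 1 := by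
    intro c hc
    exact hinj c ((QuotientGroup.eq_one_iff _).1 hc)
  obtain ⟨Φ, h1, h2, h3⟩ := hACT A B Q G (Fp G (Option Q) ⧸ N) πA πB f g s s' hs hs' τ
    (QuotientGroup.mk' N)
  refine ⟨Equiv.Perm ((Fp G (Option Q) ⧸ N) × Q), inferInstance, Φ, ?_, ?_, ?_⟩
  · -- the relator
    have h4 : ∀ (n : ℕ) y q, (Φ (wd l) ^ n) (y, q) = ((QuotientGroup.mk' N) (R q) ^ n * y, q) := by
      intro n
      induction n with
      | zero => intro y q; simp
      | succ n ih =>
        intro y q
        rw [pow_succ, Equiv.Perm.mul_apply, h3, hl1, one_mul, ih, pow_succ, mul_assoc]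
    ext p : 1
    obtain ⟨y, q⟩ := p
    rw [h4 m y q, ← map_pow]
    have h5 : (QuotientGroup.mk' N) (R q ^ m) = 1 :=
      (QuotientGroup.eq_one_iff _).2 (Subgroup.subset_normalClosure ⟨q, rfl⟩)
    rw [h5, one_mul]
    rfl
  · intro a ha h
    by_cases hπ : πA a = 1
    · obtain ⟨q₀, hq₀⟩ := hs.2
      have h4 := h1 a 1 q₀
      rw [h] at h4
      have h5 := congrArg Prod.fst h4
      simp only [Equiv.Perm.one_apply, mul_one] at h5
      have h6 := hjj _ h5.symm
      have hmem : (s (πA a * q₀))⁻¹ * a * s q₀ ∈ πA.ker := by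
        rw [MonoidHom.mem_ker, map_mul, map_mul, map_inv, hπ, one_mul, hq₀]
        simp
      have h7 : cc πA f s a q₀ = f ⟨_, hmem⟩ := by
        unfold cc
        rw [dif_pos hmem]
      rw [h7] at h6
      have h8 : (⟨(s (πA a * q₀))⁻¹ * a * s q₀, hmem⟩ : πA.ker) = 1 := hf (by rw [h6, map_one])
      have h9 : (s (πA a * q₀))⁻¹ * a * s q₀ = 1 := congrArg Subtype.val h8
      rw [hπ, one_mul] at h9
      apply ha
      have h10 : a = s q₀ * ((s q₀)⁻¹ * a * s q₀) * (s q₀)⁻¹ := by group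
      rw [h10, h9]
      group
    · have h4 := h1 a 1 1
      rw [h] at h4
      have h5 := congrArg Prod.snd h4
      simp only [Equiv.Perm.one_apply, mul_one] at h5
      exact hπ h5.symm
  · intro b hb h
    by_cases hπ : πB b = 1
    · obtain ⟨q₀, hq₀⟩ := hs'.2
      have h4 := h2 b 1 q₀
      rw [h] at h4
      have h5 := congrArg Prod.fst h4
      simp only [Equiv.Perm.one_apply, mul_one] at h5
      rw [hπ, one_mul, map_mul, map_mul, map_inv] at h5
      have h5' : (QuotientGroup.mk' N) (ofi none (cc πB g s' b q₀)) = 1 := by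
        have h9 := congrArg (fun t => ((QuotientGroup.mk' N) (ofi (some q₀) τ))⁻¹ * t *
          (QuotientGroup.mk' N) (ofi (some q₀) τ)) h5
        simpa [mul_assoc] using h9.symm
      have h6 := hjj _ h5'
      have hmem : (s' (πB b * q₀))⁻¹ * b * s' q₀ ∈ πB.ker := by
        rw [MonoidHom.mem_ker, map_mul, map_mul, map_inv, hπ, one_mul, hq₀]
        simp
      have h7 : cc πB g s' b q₀ = g ⟨_, hmem⟩ := by
        unfold cc
        rw [dif_pos hmem]
      rw [h7] at h6
      have h8 : (⟨(s' (πB b * q₀))⁻¹ * b * s' q₀, hmem⟩ : πB.ker) = 1 :=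
        hg (by rw [h6, map_one])
      have h9 : (s' (πB b * q₀))⁻¹ * b * s' q₀ = 1 := congrArg Subtype.val h8
      rw [hπ, one_mul] at h9
      apply hb
      have h10 : b = s' q₀ * ((s' q₀)⁻¹ * b * s' q₀) * (s' q₀)⁻¹ := by group
      rw [h10, h9]
      group
    · have h4 := h2 b 1 1
      rw [h] at h4
      have h5 := congrArg Prod.snd h4
      simp only [Equiv.Perm.one_apply, mul_one] at h5
      exact hπ h5.symm

theorem hCR2 (hSECA : StSEC.{u, x}) (hSECB : StSEC.{v, x}) (hACT : StACT.{u, v, max u v, x})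
    (hST2 : StST2.{u, v, max u v, x}) (hOR2 : StOR2.{max u v, x}) (hCNT : StCNT.{max u v, x}) :
    StCR2.{u, v, x} := by
  intro A B Q _ _ _ _ hord m hm πA πB l hl hne hl1 hsimple
  have hinl : Function.Injective (Coprod.inl :
      (πA.ker × πB.ker) →* Coprod (πA.ker × πB.ker) (Multiplicative ℤ)) := Coprod.inl_injective
  have hinr : Function.Injective (Coprod.inr :
      Multiplicative ℤ →* Coprod (πA.ker × πB.ker) (Multiplicative ℤ)) := Coprod.inr_injective
  refine core hSECA hSECB hACT hST2 hOR2 hCNT A B Q hord m hm πA πB l hl hne hl1 hsimple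
    (Coprod (πA.ker × πB.ker) (Multiplicative ℤ))
    ((Coprod.inl : (πA.ker × πB.ker) →* Coprod (πA.ker × πB.ker) (Multiplicative ℤ)).comp
      (MonoidHom.inl πA.ker πB.ker))
    ((Coprod.inl : (πA.ker × πB.ker) →* Coprod (πA.ker × πB.ker) (Multiplicative ℤ)).comp
      (MonoidHom.inr πA.ker πB.ker))
    ?_ ?_ (Coprod.inr (Multiplicative.ofAdd (1 : ℤ))) ?_ ?_
  · intro a b hab
    have h1 : ((a, 1) : πA.ker × πB.ker) = (b, 1) := hinl hab
    exact congrArg Prod.fst h1
  · intro a b hab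
    have h1 : ((1, a) : πA.ker × πB.ker) = (1, b) := hinl hab
    exact congrArg Prod.snd h1
  · intro h
    have h1 : (Multiplicative.ofAdd (1 : ℤ)) = 1 := hinr (by rw [h, map_one])
    have h2 : (1 : ℤ) = 0 := h1
    exact one_ne_zero h2
  · intro T _ t
    refine ⟨Coprod.lift 1 (zpowersHom T t), ?_⟩
    rw [Coprod.lift_apply_inr]
    simp

end Pool.Agent.Helper99.OF
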